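import Pool.Agent.Helper24.HW.Stmts

/-!
# Twisting an edge in an orientable map
-/

set_option autoImplicit false

namespace Pool.Agent.Helper40.HW

open Equiv Equiv.Perm Pool.Agent.Helper24.HW Pool.Agent.Helper24.HWPub Pool.Agent.Helper98.Gn

theorem NON : ST_NON := by
  intro Φ a a' g _ hc ⟨s, hs⟩ hg h0 h1 h2 ⟨s', hs'⟩
  have key : ∀ h ∈ Subgroup.closure {a 0, a 1}, ∀ f : Φ,
      (s' (h • f) = s (h • f)) ↔ (s' f = s f) := by
    intro h hh
    induction hh using Subgroup.closure_induction with
    | mem x hx =>
      intro f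
      rcases hx with rfl | hx
      · have e1 := hs 0 f
        have e2 := hs' 0 f
        rw [h0] at e2
        rw [Perm.smul_def, e1, e2]
        cases s f <;> cases s' f <;> simp
      · rw [Set.mem_singleton_iff] at hx
        subst hx
        have e1 := hs 1 f
        have e2 := hs' 1 f
        rw [h1] at e2
        rw [Perm.smul_def, e1, e2]
        cases s f <;> cases s' f <;> simp
    | one => intro f; rw [one_smul]
    | mul x y _ _ ihx ihy => intro f; rw [mul_smul, ihx, ihy]
    | inv x _ ih =>
      intro f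
      have := ih (x⁻¹ • f)
      rw [smul_inv_smul] at this
      exact this.symm
  obtain ⟨⟨h, hh⟩, hx⟩ := hg
  have hx' : h • g = a 2 g := hx
  have k1 := key h hh g
  rw [hx'] at k1
  have k2 := key (a 0) (Subgroup.subset_closure (Set.mem_insert _ _)) (a 2 g)
  rw [Perm.smul_def] at k2
  have e1 := hs' 2 g
  rw [h2, ← hc] at e1
  have e2 := hs 0 (a 2 g)
  have e3 := hs 2 g
  rw [e1, e2, e3] at k2
  rw [e3] at k1
  cases hsg : s g <;> cases hsg' : s' g <;> simp_all

end Pool.Agent.Helper40.HW
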