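import Pool.Agent.Helper26.HW.Stmts
import Pool.Agent.Helper40.HV.DIP

/-!
# Row DIE: dipoles near the nuclei and equal dipoles at all electrons
-/

set_option autoImplicit false

namespace Pool.Agent.Helper40.HW

open MeasureTheory Filter Topology Pool.Agent.Helper95.PW Pool.Agent.Helper95.LN
open Pool.Agent.Helper95.HV Pool.Agent.Helper26.HW Pool.Agent.Helper40.HV
open Pool.Agent.Helper84.LN (eid_cd)
open Pool.Agent.Helper64.HS (nr_tri nr_comm nr_nonneg nr_cont)

/-- gradients are integrable against each other -/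
theorem Iv_int (h1 : ST_PHA) (h2 : ST_PHB) {b : ℝ} (hb : 0 < b) (v x u y : R3) :
    Integrable (fun w => ∑ m, pd m (Pv b v x) w * pd m (Pv b u y) w) := by
  obtain ⟨A, -, hA⟩ := Pv_dec h1 h2 hb v x
  obtain ⟨B, -, hB⟩ := Pv_dec h1 h2 hb u y
  exact integrable_finsetSum _ fun m _ =>
    dip_int ((eid_cd m (Pv_cd h1 hb v x)).continuous) ((eid_cd m (Pv_cd h1 hb u y)).continuous)
      (hA m) (hB m)

theorem die_pos (h1 : ST_PHA) (h2 : ST_PHB) {b : ℝ} (hb : 0 < b) {ι : Type} [Fintype ι]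
    (a x : ι → R3) : 0 ≤ ∑ k, ∑ l, Iv b (a k) (x k) (a l) (x l) := by
  have h0 : 0 ≤ ∫ w, ∑ m, (∑ k, pd m (Pv b (a k) (x k)) w) ^ 2 :=
    integral_nonneg fun w => Finset.sum_nonneg fun m _ => sq_nonneg _
  have e : ∫ w, ∑ m, (∑ k, pd m (Pv b (a k) (x k)) w) ^ 2 =
      ∑ k, ∑ l, Iv b (a k) (x k) (a l) (x l) := by
    have e1 : ∀ w, ∑ m, (∑ k, pd m (Pv b (a k) (x k)) w) ^ 2 =
        ∑ k, ∑ l, ∑ m, pd m (Pv b (a k) (x k)) w * pd m (Pv b (a l) (x l)) w := by
      intro w
      have e2 : ∀ m, (∑ k, pd m (Pv b (a k) (x k)) w) ^ 2 =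
          ∑ k, ∑ l, pd m (Pv b (a k) (x k)) w * pd m (Pv b (a l) (x l)) w := by
        intro m
        rw [pow_two, Finset.sum_mul_sum]
      rw [Finset.sum_congr rfl fun m _ => e2 m, Finset.sum_comm]
      refine Finset.sum_congr rfl fun k _ => ?_
      rw [Finset.sum_comm]
    simp_rw [e1]
    rw [integral_finsetSum _ fun k _ => integrable_finsetSum _ fun l _ =>
      Iv_int h1 h2 hb (a k) (x k) (a l) (x l)]
    refine Finset.sum_congr rfl fun k _ => ?_
    rw [integral_finsetSum _ fun l _ => Iv_int h1 h2 hb (a k) (x k) (a l) (x l)]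
    rfl
  rwa [e] at h0

theorem die_young (h1 : ST_PHA) (h2 : ST_PHB) (h3 : ST_PHC) {b : ℝ} (hb : 0 < b) {ι : Type}
    [Fintype ι] (a x : ι → R3) :
    ∑ k, ∑ l, Iv b (a k) (x k) (a l) (x l) ≤ ∑ k, ∑ l, EE b (a k) (x k) (a l) (x l) := by
  have h0 : 0 ≤ ∫ w, ∑ m, (∑ k, (pd m (Pv b (a k) (x k)) w + Ev b (a k) (x k) m w)) ^ 2 :=
    integral_nonneg fun w => Finset.sum_nonneg fun m _ => sq_nonneg _
  have e : ∫ w, ∑ m, (∑ k, (pd m (Pv b (a k) (x k)) w + Ev b (a k) (x k) m w)) ^ 2 =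
      ∑ k, ∑ l, (EE b (a k) (x k) (a l) (x l) - Iv b (a k) (x k) (a l) (x l)) := by
    have e1 : ∀ w, ∑ m, (∑ k, (pd m (Pv b (a k) (x k)) w + Ev b (a k) (x k) m w)) ^ 2 =
        ∑ k, ∑ l, ∑ m, (pd m (Pv b (a k) (x k)) w + Ev b (a k) (x k) m w) *
          (pd m (Pv b (a l) (x l)) w + Ev b (a l) (x l) m w) := by
      intro w
      have e2 : ∀ m, (∑ k, (pd m (Pv b (a k) (x k)) w + Ev b (a k) (x k) m w)) ^ 2 =
          ∑ k, ∑ l, (pd m (Pv b (a k) (x k)) w + Ev b (a k) (x k) m w) *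
            (pd m (Pv b (a l) (x l)) w + Ev b (a l) (x l) m w) := by
        intro m
        rw [pow_two, Finset.sum_mul_sum]
      rw [Finset.sum_congr rfl fun m _ => e2 m, Finset.sum_comm]
      refine Finset.sum_congr rfl fun k _ => ?_
      rw [Finset.sum_comm]
    simp_rw [e1]
    rw [integral_finsetSum _ fun k _ => integrable_finsetSum _ fun l _ =>
      (dip_q h1 h2 h3 hb (a k) (x k) (a l) (x l)).1]
    refine Finset.sum_congr rfl fun k _ => ?_
    rw [integral_finsetSum _ fun l _ => (dip_q h1 h2 h3 hb (a k) (x k) (a l) (x l)).1]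
    exact Finset.sum_congr rfl fun l _ => (dip_q h1 h2 h3 hb (a k) (x k) (a l) (x l)).2
  rw [e] at h0
  simp only [Finset.sum_sub_distrib] at h0
  linarith

theorem Iv_neg (h1 : ST_PHA) {b : ℝ} (hb : 0 < b) (v x u y : R3) :
    Iv b v x (-u) y = -Iv b v x u y := by
  unfold Iv
  rw [← integral_neg]
  congr 1
  funext w
  rw [← Finset.sum_neg_distrib]
  refine Finset.sum_congr rfl fun m _ => ?_
  simp only [Pv_pd h1 hb, Pi.neg_apply, neg_mul, Finset.sum_neg_distrib, mul_neg]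

/-- interaction of dipoles with equal dipoles at all points -/
theorem die_total (h1 : ST_PHA) (h2 : ST_PHB) (h3 : ST_PHC) {b : ℝ} (hb : 0 < b) :
    ∃ C : ℝ, 0 < C ∧ ∀ (n : ℕ) (x : Fin n → R3) (a : Fin n → R3) (e : R3),
      (∀ k m, |a k m| ≤ 1) → (∀ m, |e m| ≤ 1) →
      |∑ k, ∑ l, Iv b (a k) (x k) e (x l)| ≤
        C * ∑ k, ∑ l, (if nr (x k - x l) ≤ 2 * b then (1 : ℝ) else 0) := by
  obtain ⟨C, hC, hnear⟩ := dip_near h1 h2 h3 hb
  refine ⟨2 * C, by positivity, fun n x a e ha he => ?_⟩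
  have key : ∀ e : R3, (∀ m, |e m| ≤ 1) → ∑ k, ∑ l, Iv b (a k) (x k) e (x l) ≤
      2 * C * ∑ k, ∑ l, (if nr (x k - x l) ≤ 2 * b then (1 : ℝ) else 0) := by
    intro e he
    have y := die_young h1 h2 h3 hb (ι := Fin n ⊕ Fin n) (Sum.elim a fun _ => e) (Sum.elim x x)
    simp only [Fintype.sum_sum_type, Sum.elim_inl, Sum.elim_inr, Finset.sum_add_distrib] at y
    have p1 := die_pos h1 h2 hb a x
    have p2 := die_pos h1 h2 hb (fun _ : Fin n => e) x
    have c1 : ∑ k, ∑ l, Iv b e (x k) (a l) (x l) = ∑ k, ∑ l, Iv b (a k) (x k) e (x l) := by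
      rw [Finset.sum_comm]
      exact Finset.sum_congr rfl fun k _ => Finset.sum_congr rfl fun l _ => Iv_comm _ _ _ _ _
    have q : ∀ (v u : R3), (∀ m, |v m| ≤ 1) → (∀ m, |u m| ≤ 1) → ∀ k l : Fin n,
        EE b v (x k) u (x l) ≤ C * (if nr (x k - x l) ≤ 2 * b then (1 : ℝ) else 0) := by
      intro v u hv hu k l
      split_ifs with h
      · have := (abs_le.1 (hnear v (x k) u (x l) 1 hv hu).2).2
        linarith
      · rw [EE_far h3 hb _ _ _ _ (not_le.1 h), mul_zero]
    have Q : ∀ (v u : Fin n → R3), (∀ k m, |v k m| ≤ 1) → (∀ k m, |u k m| ≤ 1) →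
        ∑ k, ∑ l, EE b (v k) (x k) (u l) (x l) ≤
          C * ∑ k, ∑ l, (if nr (x k - x l) ≤ 2 * b then (1 : ℝ) else 0) := by
      intro v u hv hu
      rw [Finset.mul_sum]
      refine Finset.sum_le_sum fun k _ => ?_
      rw [Finset.mul_sum]
      exact Finset.sum_le_sum fun l _ => q (v k) (u l) (hv k) (hu l) k l
    have q1 := Q a a ha ha
    have q2 := Q a (fun _ => e) ha fun _ => he
    have q3 := Q (fun _ => e) a (fun _ => he) ha
    have q4 := Q (fun _ => e) (fun _ => e) (fun _ => he) fun _ => he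
    rw [c1] at y
    linarith
  rw [abs_le]
  constructor
  · have := key (-e) (fun m => by rw [Pi.neg_apply, abs_neg]; exact he m)
    simp only [Iv_neg h1 hb, Finset.sum_neg_distrib] at this
    linarith
  · exact key e he

/-- the row for `K = 1` -/
theorem die_one (h1 : ST_PHA) (h2 : ST_PHB) (h3 : ST_PHC) (h4 : ST_MVP) (h5 : ST_PCN)
    {d : ℝ} (hd : 0 < d) (hd1 : d ≤ 1) : ∃ C : ℝ, 0 < C ∧ ∀ (n M : ℕ)
    (X : Fin M → R3) (x : Cf n) (e : R3) (a : Fin n → R3), Sep X d → Dist X x →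
    (∀ m, |e m| ≤ 1) → (∀ k m, |a k m| ≤ 1) → (∀ k, (∀ i, d / 2 < nr (x k - X i)) → a k = 0) →
    |∑ i, ∑ k, (if nr (x k - X i) ≤ d / 2 then
        (∑ l, if nr (x l - X i) < 3 / 2 * d then 0 else Tq (x k - x l) e (a k)) else 0)| ≤
      C * (∑ i, cnt X (3 / 2 * d) x i ^ 2 + n + Rem (d / 8) x) := by
  have hb : 0 < d / 128 := by positivity
  obtain ⟨C1, hC1, hnear⟩ := dip_near h1 h2 h3 hb
  obtain ⟨C2, hC2, htot⟩ := die_total h1 h2 h3 hb
  have hkap : 0 < kap := h3.2.1
  refine ⟨(C1 + C2) / kap, by positivity, fun n M X x e a hX hx he ha hz => ?_⟩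
  set b := d / 128 with hbd
  -- number of near pairs
  have hpc := h5 d n M X x hd hx
  have hR : 0 ≤ Rem (d / 8) x := by
    have h6 : (n : ℝ) ≤ ∑ k, ∑ l, (if nr (x k - x l) < d / 32 then (1 : ℝ) else 0) := by
      have h7 : ∀ k : Fin n, (1 : ℝ) ≤ ∑ l, (if nr (x k - x l) < d / 32 then (1 : ℝ) else 0) := by
        intro k
        refine le_trans (le_of_eq ?_) (Finset.single_le_sum (f := fun l =>
          if nr (x k - x l) < d / 32 then (1 : ℝ) else 0) (fun l _ => by
            split_ifs <;> norm_num) (Finset.mem_univ k))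
        have : nr (x k - x k) = 0 := by
          rw [sub_self]
          simp [nr]
        rw [this, if_pos (by positivity)]
      have h8 := Finset.sum_le_sum fun k (_ : k ∈ (Finset.univ : Finset (Fin n))) => h7 k
      simpa using h8
    have h9 : 0 ≤ d / 8 * Rem (d / 8) x := by linarith
    exact nonneg_of_mul_nonneg_right h9 (by positivity)
  have hpc2 : ∑ k, ∑ l, (if nr (x k - x l) ≤ 2 * b then (1 : ℝ) else 0) ≤
      n + Rem (d / 8) x := by
    have h6 : ∑ k, ∑ l, (if nr (x k - x l) ≤ 2 * b then (1 : ℝ) else 0) ≤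
        ∑ k, ∑ l, (if nr (x k - x l) < d / 32 then (1 : ℝ) else 0) := by
      refine Finset.sum_le_sum fun k _ => Finset.sum_le_sum fun l _ => ?_
      by_cases h : nr (x k - x l) ≤ 2 * b
      · rw [if_pos h, if_pos (by rw [hbd] at h; linarith)]
      · rw [if_neg h]
        split_ifs <;> norm_num
    have h7 : d / 8 * Rem (d / 8) x ≤ 1 * Rem (d / 8) x :=
      mul_le_mul_of_nonneg_right (by linarith) hR
    linarith
  -- each term
  have t1 : ∀ i k, kap * (if nr (x k - X i) ≤ d / 2 then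
      (∑ l, if nr (x l - X i) < 3 / 2 * d then 0 else Tq (x k - x l) e (a k)) else 0) =
      (if nr (x k - X i) ≤ d / 2 then (∑ l, if nr (x l - X i) < 3 / 2 * d then
        Iv b (a k) (x k) e (x l) else 0) else 0) -
      (if nr (x k - X i) ≤ d / 2 then ∑ l, Iv b (a k) (x k) e (x l) else 0) := by
    intro i k
    by_cases h : nr (x k - X i) ≤ d / 2
    · rw [if_pos h, if_pos h, if_pos h, Finset.mul_sum, ← Finset.sum_sub_distrib]
      refine Finset.sum_congr rfl fun l _ => ?_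
      by_cases h' : nr (x l - X i) < 3 / 2 * d
      · rw [if_pos h', if_pos h']
        ring
      · rw [if_neg h', if_neg h']
        have h6 : 2 * b < nr (x k - x l) := by
          have := nr_tri (x l) (x k) (X i)
          rw [nr_comm (x l) (x k)] at this
          rw [not_lt] at h'
          rw [hbd]
          linarith
        rw [dip_pair h4 h1 h2 h3 hb (a k) (x k) e (x l) h6]
        have h7 : Tq (x k - x l) e (a k) = Tq (x k - x l) (a k) e := by
          unfold Tq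
          simp only [Fin.sum_univ_three]
          ring
        rw [h7]
        ring
    · rw [if_neg h, if_neg h, if_neg h]
      ring
  have t2 : ∑ i, ∑ k, (if nr (x k - X i) ≤ d / 2 then ∑ l, Iv b (a k) (x k) e (x l) else 0) =
      ∑ k, ∑ l, Iv b (a k) (x k) e (x l) := by
    rw [Finset.sum_comm]
    refine Finset.sum_congr rfl fun k _ => ?_
    by_cases h : ∃ i, nr (x k - X i) ≤ d / 2
    · obtain ⟨i, hi⟩ := h
      rw [Finset.sum_eq_single i]
      · rw [if_pos hi]
      · intro j _ hj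
        rw [if_neg]
        intro hj'
        have s1 := hX i j (Ne.symm hj)
        have s2 := nr_tri (X i) (x k) (X j)
        rw [nr_comm (X i) (x k)] at s2
        linarith
      · intro h
        exact absurd (Finset.mem_univ i) h
    · push Not at h
      have h6 := hz k h
      rw [h6]
      simp [Iv_zero1 h1 hb]
  have t3 : |∑ i, ∑ k, (if nr (x k - X i) ≤ d / 2 then (∑ l, if nr (x l - X i) < 3 / 2 * d then
        Iv b (a k) (x k) e (x l) else 0) else 0)| ≤ C1 * ∑ i, cnt X (3 / 2 * d) x i ^ 2 := by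
    rw [Finset.mul_sum]
    refine (Finset.abs_sum_le_sum_abs _ _).trans (Finset.sum_le_sum fun i _ => ?_)
    have e1 : C1 * cnt X (3 / 2 * d) x i ^ 2 = ∑ k, ∑ l, C1 *
        ((if nr (x k - X i) < 3 / 2 * d then (1:ℝ) else 0) *
        (if nr (x l - X i) < 3 / 2 * d then 1 else 0)) := by
      simp only [← Finset.mul_sum]
      unfold cnt
      rw [pow_two, Finset.sum_mul]
    rw [e1]
    refine (Finset.abs_sum_le_sum_abs _ _).trans (Finset.sum_le_sum fun k _ => ?_)
    by_cases h : nr (x k - X i) ≤ d / 2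
    · rw [if_pos h, if_pos (by linarith)]
      refine (Finset.abs_sum_le_sum_abs _ _).trans (Finset.sum_le_sum fun l _ => ?_)
      by_cases h' : nr (x l - X i) < 3 / 2 * d
      · rw [if_pos h', if_pos h']
        have := (hnear (a k) (x k) e (x l) 1 (ha k) he).1
        linarith
      · rw [if_neg h', if_neg h', abs_zero, mul_zero, mul_zero]
    · rw [if_neg h, abs_zero]
      refine Finset.sum_nonneg fun l _ => mul_nonneg hC1.le ?_
      split_ifs <;> norm_num
  have t4 := htot n x a e ha he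
  set S := ∑ i, ∑ k, (if nr (x k - X i) ≤ d / 2 then
      (∑ l, if nr (x l - X i) < 3 / 2 * d then 0 else Tq (x k - x l) e (a k)) else 0) with hS
  have t5 : kap * S = (∑ i, ∑ k, (if nr (x k - X i) ≤ d / 2 then
      (∑ l, if nr (x l - X i) < 3 / 2 * d then Iv b (a k) (x k) e (x l) else 0) else 0)) -
      ∑ k, ∑ l, Iv b (a k) (x k) e (x l) := by
    rw [hS, Finset.mul_sum, ← t2, ← Finset.sum_sub_distrib]
    refine Finset.sum_congr rfl fun i _ => ?_
    rw [Finset.mul_sum, ← Finset.sum_sub_distrib]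
    exact Finset.sum_congr rfl fun k _ => t1 i k
  have t6 : kap * |S| ≤ (C1 + C2) * (∑ i, cnt X (3 / 2 * d) x i ^ 2 + n + Rem (d / 8) x) := by
    have h6 : kap * |S| = |kap * S| := by rw [abs_mul, abs_of_pos hkap]
    rw [h6, t5]
    refine (abs_sub _ _).trans ((add_le_add t3 t4).trans ?_)
    have c0 : 0 ≤ ∑ i, cnt X (3 / 2 * d) x i ^ 2 := Finset.sum_nonneg fun i _ => sq_nonneg _
    have n0 : (0:ℝ) ≤ n := Nat.cast_nonneg n
    have m1 := mul_le_mul_of_nonneg_left hpc2 hC2.le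
    have m2 : 0 ≤ C1 * (n + Rem (d / 8) x) := by positivity
    have m3 : 0 ≤ C2 * ∑ i, cnt X (3 / 2 * d) x i ^ 2 := by positivity
    linarith
  rw [div_mul_eq_mul_div, le_div_iff₀ hkap]
  linarith

theorem DIE (h1 : ST_PHA) (h2 : ST_PHB) (h3 : ST_PHC) (h4 : ST_MVP) (h5 : ST_PCN) : ST_DIE := by
  intro d hd hd1
  obtain ⟨C, hC, H⟩ := die_one h1 h2 h3 h4 h5 hd hd1
  refine ⟨C, hC, fun n M X x e a K hX hx he ha hz => ?_⟩
  rcases n.eq_zero_or_pos with hn | hn
  · subst hn
    simp [cnt, Rem]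
  have hK : 0 ≤ K := (abs_nonneg _).trans (ha ⟨0, hn⟩ 0)
  rcases hK.eq_or_lt with hK0 | hK0
  · subst hK0
    have ha0 : ∀ k, a k = 0 := by
      intro k
      funext m
      have := ha k m
      simpa using this
    simp [ha0, Tq]
  · have h6 := H n M X x e (fun k => K⁻¹ • a k) hX hx he (fun k m => by
      rw [Pi.smul_apply, smul_eq_mul, abs_mul, abs_of_pos (inv_pos.2 hK0)]
      calc K⁻¹ * |a k m| ≤ K⁻¹ * K := mul_le_mul_of_nonneg_left (ha k m) (inv_pos.2 hK0).le
        _ = 1 := inv_mul_cancel₀ hK0.ne') (fun k hk => by rw [hz k hk, smul_zero])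
    have h7 : ∀ ξ v : R3, Tq ξ e v = K * Tq ξ e (K⁻¹ • v) := by
      intro ξ v
      unfold Tq
      simp only [Fin.sum_univ_three, Pi.smul_apply, smul_eq_mul]
      field_simp
    have h8 : ∑ i, ∑ k, (if nr (x k - X i) ≤ d / 2 then
        (∑ l, if nr (x l - X i) < 3 / 2 * d then 0 else Tq (x k - x l) e (a k)) else 0) =
        K * ∑ i, ∑ k, (if nr (x k - X i) ≤ d / 2 then
        (∑ l, if nr (x l - X i) < 3 / 2 * d then 0 else Tq (x k - x l) e (K⁻¹ • a k)) else 0) := by
      simp only [Finset.mul_sum, mul_ite, mul_zero]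
      simp only [← h7]
    rw [h8, abs_mul, abs_of_pos hK0]
    calc _ ≤ K * (C * (∑ i, cnt X (3 / 2 * d) x i ^ 2 + n + Rem (d / 8) x)) :=
          mul_le_mul_of_nonneg_left h6 hK0.le
      _ = _ := by ring

end Pool.Agent.Helper40.HW
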